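import Pool.Agent.J4H23.Fam.Main
set_option autoImplicit false

/-!
# Turn-based stochastic games: values of strategies
-/

namespace Pool.Agent.J4H23.Fam.Game

open Finset Matrix Pool.Agent.J4H23.Fam

variable {r l k : ℕ}

/-- positions: `Fin r` belong to the maximiser, `Fin l` to the minimiser -/
abbrev Pos (r l : ℕ) : Type := Fin r ⊕ Fin l

/-- the value of the action `a` at `s` if the game goes on with the payoffs `v` -/
def qv (P : Pos r l → Fin k → Pos r l → ℝ) (ρ : Pos r l → Fin k → ℝ) (v : Pos r l → ℝ)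
    (s : Pos r l) (a : Fin k) : ℝ := ρ s a + ∑ t, P s a t * v t

/-- `v` is the vector of the values of the strategy `σ` of the maximiser, that is the least payoffs
which the minimiser can enforce against `σ`: the solution of the optimality equations -/
def IsValue (P : Pos r l → Fin k → Pos r l → ℝ) (ρ : Pos r l → Fin k → ℝ) (σ : Fin r → Fin k)
    (v : Pos r l → ℝ) : Prop :=
  (∀ s : Fin r, v (Sum.inl s) = qv P ρ v (Sum.inl s) (σ s)) ∧
    ∀ s : Fin l, (∀ a, v (Sum.inr s) ≤ qv P ρ v (Sum.inr s) a) ∧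
      ∃ a, v (Sum.inr s) = qv P ρ v (Sum.inr s) a

variable {P : Pos r l → Fin k → Pos r l → ℝ} {ρ : Pos r l → Fin k → ℝ}

lemma qv_mono (h0 : ∀ s a t, 0 ≤ P s a t) {v w : Pos r l → ℝ} (h : ∀ t, v t ≤ w t)
    (s : Pos r l) (a : Fin k) : qv P ρ v s a ≤ qv P ρ w s a := by
  unfold qv
  have : ∑ t, P s a t * v t ≤ ∑ t, P s a t * w t :=
    sum_le_sum fun t _ => mul_le_mul_of_nonneg_left (h t) (h0 s a t)
  linarith

lemma nonneg_of (h0 : ∀ s a t, 0 ≤ P s a t) (h1 : ∀ s a, ∑ t, P s a t < 1)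
    (x : Pos r l → Fin k) {u : Pos r l → ℝ} (h : ∀ s, ∑ t, P s (x s) t * u t ≤ u s) :
    ∀ s, 0 ≤ u s := by
  intro s₀
  obtain ⟨s, -, hs⟩ := exists_min_image (univ : Finset (Pos r l)) u ⟨s₀, mem_univ _⟩
  refine le_trans ?_ (hs s₀ (mem_univ _))
  by_contra hcon
  push Not at hcon
  have e1 : (∑ t, P s (x s) t) * u s ≤ ∑ t, P s (x s) t * u t := by
    rw [sum_mul]
    exact sum_le_sum fun t _ => mul_le_mul_of_nonneg_left (hs t (mem_univ _)) (h0 _ _ _)
  have e2 := h s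
  have e3 := h1 s (x s)
  nlinarith

/-- the matrix of the joint strategy `x` -/
noncomputable def LL (P : Pos r l → Fin k → Pos r l → ℝ) (x : Pos r l → Fin k) :
    Matrix (Pos r l) (Pos r l) ℝ := 1 - Matrix.of fun s t => P s (x s) t

lemma LL_mulVec (x : Pos r l → Fin k) (u : Pos r l → ℝ) (s : Pos r l) :
    (LL P x *ᵥ u) s = u s - ∑ t, P s (x s) t * u t := by
  unfold LL
  rw [sub_mulVec, one_mulVec, Pi.sub_apply]
  rfl

lemma det_ne (h0 : ∀ s a t, 0 ≤ P s a t) (h1 : ∀ s a, ∑ t, P s a t < 1)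
    (x : Pos r l → Fin k) : (LL P x).det ≠ 0 := by
  intro h
  obtain ⟨v, hv, hv0⟩ := exists_mulVec_eq_zero_iff.2 h
  apply hv
  have e : ∀ s, v s = ∑ t, P s (x s) t * v t := by
    intro s
    have := congrFun hv0 s
    rw [LL_mulVec, Pi.zero_apply] at this
    linarith
  have e1 := nonneg_of h0 h1 x (u := v) fun s => (e s).ge
  have e2 := nonneg_of h0 h1 x (u := -v) fun s => by
    simp only [Pi.neg_apply, mul_neg, sum_neg_distrib]
    have := e s
    linarith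
  funext s
  have h3 := e1 s
  have h4 := e2 s
  simp only [Pi.neg_apply] at h4
  simp only [Pi.zero_apply]
  linarith

/-- the payoffs of the joint strategy `x` -/
noncomputable def val (P : Pos r l → Fin k → Pos r l → ℝ) (ρ : Pos r l → Fin k → ℝ)
    (x : Pos r l → Fin k) : Pos r l → ℝ := (LL P x)⁻¹ *ᵥ fun s => ρ s (x s)

lemma LL_val (h0 : ∀ s a t, 0 ≤ P s a t) (h1 : ∀ s a, ∑ t, P s a t < 1)
    (x : Pos r l → Fin k) : LL P x *ᵥ val P ρ x = fun s => ρ s (x s) := by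
  unfold val
  rw [mulVec_mulVec, mul_nonsing_inv _ (isUnit_iff_ne_zero.2 (det_ne h0 h1 x)), one_mulVec]

lemma val_eq (h0 : ∀ s a t, 0 ≤ P s a t) (h1 : ∀ s a, ∑ t, P s a t < 1)
    (x : Pos r l → Fin k) (s : Pos r l) : val P ρ x s = qv P ρ (val P ρ x) s (x s) := by
  have := congrFun (LL_val (ρ := ρ) h0 h1 x) s
  rw [LL_mulVec] at this
  unfold qv
  linarith

lemma le_val (h0 : ∀ s a t, 0 ≤ P s a t) (h1 : ∀ s a, ∑ t, P s a t < 1)
    {x : Pos r l → Fin k} {w : Pos r l → ℝ} (h : ∀ s, w s ≤ qv P ρ w s (x s)) :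
    ∀ s, w s ≤ val P ρ x s := by
  intro s
  have := nonneg_of h0 h1 x (u := fun s => val P ρ x s - w s) (fun s => ?_) s
  · linarith
  · have e1 := val_eq (ρ := ρ) h0 h1 x s
    have e2 := h s
    unfold qv at e1 e2
    simp only [mul_sub, sum_sub_distrib]
    linarith

lemma val_le (h0 : ∀ s a t, 0 ≤ P s a t) (h1 : ∀ s a, ∑ t, P s a t < 1)
    {x : Pos r l → Fin k} {w : Pos r l → ℝ} (h : ∀ s, qv P ρ w s (x s) ≤ w s) :
    ∀ s, val P ρ x s ≤ w s := by
  intro s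
  have := nonneg_of h0 h1 x (u := fun s => w s - val P ρ x s) (fun s => ?_) s
  · linarith
  · have e1 := val_eq (ρ := ρ) h0 h1 x s
    have e2 := h s
    unfold qv at e1 e2
    simp only [mul_sub, sum_sub_distrib]
    linarith

section

variable [NeZero k]

/-- a best response of the minimiser -/
lemma exists_br (P : Pos r l → Fin k → Pos r l → ℝ) (ρ : Pos r l → Fin k → ℝ)
    (σ : Fin r → Fin k) : ∃ τ : Fin l → Fin k, ∀ τ', ∑ s, val P ρ (Sum.elim σ τ) s ≤
      ∑ s, val P ρ (Sum.elim σ τ') s := by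
  have : Nonempty (Fin l → Fin k) := ⟨fun _ => 0⟩
  obtain ⟨τ, -, h⟩ := exists_min_image (univ : Finset (Fin l → Fin k))
    (fun τ => ∑ s, val P ρ (Sum.elim σ τ) s) univ_nonempty
  exact ⟨τ, fun τ' => h τ' (mem_univ _)⟩

/-- a best response of the minimiser -/
noncomputable def br (P : Pos r l → Fin k → Pos r l → ℝ) (ρ : Pos r l → Fin k → ℝ)
    (σ : Fin r → Fin k) : Fin l → Fin k := (exists_br P ρ σ).choose

/-- the values of the strategy `σ` -/
noncomputable def vs (P : Pos r l → Fin k → Pos r l → ℝ) (ρ : Pos r l → Fin k → ℝ)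
    (σ : Fin r → Fin k) : Pos r l → ℝ := val P ρ (Sum.elim σ (br P ρ σ))

lemma vs_inl (h0 : ∀ s a t, 0 ≤ P s a t) (h1 : ∀ s a, ∑ t, P s a t < 1) (σ : Fin r → Fin k)
    (s : Fin r) : vs P ρ σ (Sum.inl s) = qv P ρ (vs P ρ σ) (Sum.inl s) (σ s) :=
  val_eq h0 h1 _ _

lemma vs_inr (h0 : ∀ s a t, 0 ≤ P s a t) (h1 : ∀ s a, ∑ t, P s a t < 1) (σ : Fin r → Fin k)
    (s : Fin l) : vs P ρ σ (Sum.inr s) = qv P ρ (vs P ρ σ) (Sum.inr s) (br P ρ σ s) :=
  val_eq h0 h1 _ _

lemma vs_min (h0 : ∀ s a t, 0 ≤ P s a t) (h1 : ∀ s a, ∑ t, P s a t < 1) (σ : Fin r → Fin k)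
    (s : Fin l) (a : Fin k) : vs P ρ σ (Sum.inr s) ≤ qv P ρ (vs P ρ σ) (Sum.inr s) a := by
  by_contra hcon
  push Not at hcon
  set τ' := Function.update (br P ρ σ) s a with hτ'
  have hle : ∀ t, qv P ρ (vs P ρ σ) t (Sum.elim σ τ' t) ≤ vs P ρ σ t := by
    rintro (t | t)
    · exact (vs_inl h0 h1 σ t).ge
    · simp only [Sum.elim_inr]
      by_cases ht : t = s
      · subst ht
        rw [hτ', Function.update_self]
        exact hcon.le
      · rw [hτ', Function.update_of_ne ht]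
        exact (vs_inr h0 h1 σ t).ge
  have h2 := val_le h0 h1 hle
  have h3 : val P ρ (Sum.elim σ τ') (Sum.inr s) < vs P ρ σ (Sum.inr s) := by
    rw [val_eq h0 h1]
    refine lt_of_le_of_lt (qv_mono h0 h2 _ _) ?_
    simp only [Sum.elim_inr]
    rw [hτ', Function.update_self]
    exact hcon
  have h4 := (exists_br P ρ σ).choose_spec τ'
  have h5 : ∑ t, val P ρ (Sum.elim σ τ') t < ∑ t, vs P ρ σ t :=
    sum_lt_sum (fun t _ => h2 t) ⟨_, mem_univ _, h3⟩
  exact absurd (lt_of_le_of_lt h4 h5) (lt_irrefl _)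

lemma isValue_vs (h0 : ∀ s a t, 0 ≤ P s a t) (h1 : ∀ s a, ∑ t, P s a t < 1)
    (σ : Fin r → Fin k) : IsValue P ρ σ (vs P ρ σ) :=
  ⟨fun s => vs_inl h0 h1 σ s, fun s => ⟨fun a => vs_min h0 h1 σ s a, _, vs_inr h0 h1 σ s⟩⟩

lemma IsValue.eq (h0 : ∀ s a t, 0 ≤ P s a t) (h1 : ∀ s a, ∑ t, P s a t < 1)
    {σ : Fin r → Fin k} {v : Pos r l → ℝ} (hv : IsValue P ρ σ v) : v = vs P ρ σ := by
  choose τ hτ using fun s => (hv.2 s).2
  have e1 : ∀ s, v s ≤ vs P ρ σ s := by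
    refine le_val h0 h1 ?_
    rintro (s | s)
    · exact (hv.1 s).le
    · exact (hv.2 s).1 _
  have e2 : ∀ s, vs P ρ σ s ≤ v s := by
    intro s
    have h2 : ∀ s, vs P ρ σ s ≤ val P ρ (Sum.elim σ τ) s := by
      refine le_val h0 h1 ?_
      rintro (s | s)
      · exact (vs_inl h0 h1 σ s).le
      · exact vs_min h0 h1 σ s _
    have h3 : ∀ s, val P ρ (Sum.elim σ τ) s ≤ v s := by
      refine val_le h0 h1 ?_
      rintro (s | s)
      · exact (hv.1 s).ge
      · exact (hτ s).ge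
    exact (h2 s).trans (h3 s)
  exact funext fun s => le_antisymm (e1 s) (e2 s)

/-- the objective function -/
noncomputable def obj (P : Pos r l → Fin k → Pos r l → ℝ) (ρ : Pos r l → Fin k → ℝ)
    (σ : Fin r → Fin k) : ℝ := ∑ s, vs P ρ σ s

lemma mono_down (h0 : ∀ s a t, 0 ≤ P s a t) (h1 : ∀ s a, ∑ t, P s a t < 1)
    {σ σ' : Fin r → Fin k} (h : ∀ s, qv P ρ (vs P ρ σ) (Sum.inl s) (σ' s) ≤
      vs P ρ σ (Sum.inl s)) : ∀ s, vs P ρ σ' s ≤ vs P ρ σ s := by
  intro s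
  have h2 : ∀ s, vs P ρ σ' s ≤ val P ρ (Sum.elim σ' (br P ρ σ)) s := by
    refine le_val h0 h1 ?_
    rintro (s | s)
    · exact (vs_inl h0 h1 σ' s).le
    · exact vs_min h0 h1 σ' s _
  have h3 : ∀ s, val P ρ (Sum.elim σ' (br P ρ σ)) s ≤ vs P ρ σ s := by
    refine val_le h0 h1 ?_
    rintro (s | s)
    · exact h s
    · exact (vs_inr h0 h1 σ s).ge
  exact (h2 s).trans (h3 s)

lemma mono_up (h0 : ∀ s a t, 0 ≤ P s a t) (h1 : ∀ s a, ∑ t, P s a t < 1)
    {σ : Fin r → Fin k} {p : Fin r × Fin k}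
    (h : vs P ρ σ (Sum.inl p.1) < qv P ρ (vs P ρ σ) (Sum.inl p.1) p.2) :
    (∀ s, vs P ρ σ s ≤ vs P ρ (switch σ p) s) ∧
      vs P ρ σ (Sum.inl p.1) < vs P ρ (switch σ p) (Sum.inl p.1) := by
  have h2 : ∀ s, vs P ρ σ s ≤ vs P ρ (switch σ p) s := by
    refine le_val h0 h1 ?_
    rintro (s | s)
    · simp only [Sum.elim_inl, switch]
      by_cases hs : s = p.1
      · subst hs
        rw [Function.update_self]
        exact h.le
      · rw [Function.update_of_ne hs]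
        exact (vs_inl h0 h1 σ s).le
    · exact vs_min h0 h1 σ s _
  refine ⟨h2, ?_⟩
  refine h.trans_le ((qv_mono h0 h2 _ _).trans ?_)
  have := vs_inl (ρ := ρ) h0 h1 (switch σ p) p.1
  rw [this]
  unfold switch
  rw [Function.update_self]

lemma obj_iff (h0 : ∀ s a t, 0 ≤ P s a t) (h1 : ∀ s a, ∑ t, P s a t < 1)
    (σ : Fin r → Fin k) (p : Fin r × Fin k) : obj P ρ σ < obj P ρ (switch σ p) ↔
      vs P ρ σ (Sum.inl p.1) < qv P ρ (vs P ρ σ) (Sum.inl p.1) p.2 := by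
  constructor
  · intro h
    by_contra hcon
    push Not at hcon
    have := mono_down (σ' := switch σ p) h0 h1 (σ := σ) (ρ := ρ) (fun s => by
      unfold switch
      by_cases hs : s = p.1
      · subst hs
        rw [Function.update_self]
        exact hcon
      · rw [Function.update_of_ne hs]
        exact (vs_inl h0 h1 σ s).ge)
    exact absurd (lt_of_lt_of_le h (sum_le_sum fun s _ => this s)) (lt_irrefl _)
  · intro h
    obtain ⟨h2, h3⟩ := mono_up h0 h1 h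
    exact sum_lt_sum (fun s _ => h2 s) ⟨_, mem_univ _, h3⟩

lemma good (h0 : ∀ s a t, 0 ≤ P s a t) (h1 : ∀ s a, ∑ t, P s a t < 1) :
    Good (obj P ρ) := by
  intro Y σ _ hloc y hy
  refine sum_le_sum fun s _ => mono_down h0 h1 (fun s => ?_) s
  by_contra hcon
  push Not at hcon
  have := (obj_iff h0 h1 σ (s, y s)).2 hcon
  exact absurd (hloc s (y s) (hy s)) (not_le.2 this)

end

end Pool.Agent.J4H23.Fam.Game
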