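import Pool.Agent.J4H23.Fam.Game
import Pool.Agent.Helper448.Warren
set_option autoImplicit false

/-!
# Turn-based stochastic games: counting improving sets
-/

namespace Pool.Agent.J4H23.Fam.Game

open Finset Matrix MvPolynomial Pool.Agent.J4H23.Fam

variable {r l k : ℕ}

/-- variables -/
abbrev Vr (r l k : ℕ) := (Pos r l × Fin k × Pos r l) ⊕ (Pos r l × Fin k)

/-- the matrix of a joint strategy -/
noncomputable def pL (x : Pos r l → Fin k) :
    Matrix (Pos r l) (Pos r l) (MvPolynomial (Vr r l k) ℝ) :=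
  Matrix.of fun s t => C (if s = t then 1 else 0) - X (Sum.inl (s, x s, t))

/-- the polynomials whose signs determine the improving sets -/
noncomputable def gg (x : (Pos r l → Fin k) × (Pos r l × Fin k)) : MvPolynomial (Vr r l k) ℝ :=
  (pL x.1).det * ((pL x.1).det * X (Sum.inr x.2) +
    ∑ t, X (Sum.inl (x.2.1, x.2.2, t)) *
      ((pL x.1).updateCol t fun s => X (Sum.inr (s, x.1 s))).det -
    ((pL x.1).updateCol x.2.1 fun s => X (Sum.inr (s, x.1 s))).det)

lemma totalDegree_det_le (M : Matrix (Pos r l) (Pos r l) (MvPolynomial (Vr r l k) ℝ))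
    (hM : ∀ i j, (M i j).totalDegree ≤ 1) : M.det.totalDegree ≤ r + l := by
  rw [det_apply]
  apply (totalDegree_finsetSum _ _).trans
  apply Finset.sup_le
  intro σ _
  refine (totalDegree_smul_le _ _).trans ?_
  refine (totalDegree_finsetProd _ _).trans ?_
  refine (Finset.sum_le_sum fun i _ => hM _ _).trans ?_
  simp

lemma totalDegree_pL_apply (x : Pos r l → Fin k) (i j : Pos r l) :
    (pL x i j).totalDegree ≤ 1 := by
  unfold pL
  rw [of_apply]
  refine (totalDegree_sub _ _).trans (max_le ?_ ?_)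
  · rw [totalDegree_C]; omega
  · rw [totalDegree_X]

lemma totalDegree_upd (x : Pos r l → Fin k) (t : Pos r l) :
    ((pL x).updateCol t fun s => X (Sum.inr (s, x s))).det.totalDegree ≤ r + l := by
  apply totalDegree_det_le
  intro i j
  rw [updateCol_apply]
  split_ifs
  · rw [totalDegree_X]
  · exact totalDegree_pL_apply x i j

lemma totalDegree_gg (x : (Pos r l → Fin k) × (Pos r l × Fin k)) :
    (gg x).totalDegree ≤ 2 * (r + l) + 1 := by
  unfold gg
  have h0 := totalDegree_det_le (pL x.1) (totalDegree_pL_apply x.1)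
  refine (totalDegree_mul _ _).trans ?_
  have h1 : ((pL x.1).det * X (Sum.inr x.2) +
    ∑ t, X (Sum.inl (x.2.1, x.2.2, t)) *
      ((pL x.1).updateCol t fun s => X (Sum.inr (s, x.1 s))).det -
    ((pL x.1).updateCol x.2.1 fun s => X (Sum.inr (s, x.1 s))).det :
      MvPolynomial (Vr r l k) ℝ).totalDegree ≤ r + l + 1 := by
    refine (totalDegree_sub _ _).trans (max_le ?_ ?_)
    · refine (totalDegree_add _ _).trans (max_le ?_ ?_)
      · refine (totalDegree_mul _ _).trans ?_
        rw [totalDegree_X]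
        omega
      · refine (totalDegree_finsetSum _ _).trans (Finset.sup_le fun t _ => ?_)
        refine (totalDegree_mul _ _).trans ?_
        rw [totalDegree_X]
        have := totalDegree_upd x.1 t
        omega
    · exact (totalDegree_upd x.1 _).trans (by omega)
  omega

/-- the valuation -/
def valu (P : Pos r l → Fin k → Pos r l → ℝ) (ρ : Pos r l → Fin k → ℝ) : Vr r l k → ℝ
  | Sum.inl p => P p.1 p.2.1 p.2.2
  | Sum.inr p => ρ p.1 p.2

variable {P : Pos r l → Fin k → Pos r l → ℝ} {ρ : Pos r l → Fin k → ℝ}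

lemma eval_det (x : Pos r l → Fin k) : eval (valu P ρ) (pL x).det = (LL P x).det := by
  rw [RingHom.map_det]
  congr 1
  ext i j
  simp [pL, LL, valu, Matrix.one_apply]

lemma eval_upd (x : Pos r l → Fin k) (t : Pos r l) :
    eval (valu P ρ) ((pL x).updateCol t fun s => X (Sum.inr (s, x s))).det =
      cramer (LL P x) (fun s => ρ s (x s)) t := by
  rw [cramer_apply, RingHom.map_det]
  congr 1
  ext i j
  simp only [RingHom.mapMatrix_apply, Matrix.map_apply, updateCol_apply]
  split_ifs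
  · simp [valu]
  · simp [pL, LL, valu, Matrix.one_apply]

lemma eval_gg (h0 : ∀ s a t, 0 ≤ P s a t) (h1 : ∀ s a, ∑ t, P s a t < 1)
    (x : Pos r l → Fin k) (s : Pos r l) (a : Fin k) :
    eval (valu P ρ) (gg (x, s, a)) = (LL P x).det ^ 2 *
      (qv P ρ (val P ρ x) s a - val P ρ x s) := by
  have h2 : cramer (LL P x) (fun s => ρ s (x s)) = (LL P x).det • val P ρ x := by
    rw [← LL_val (ρ := ρ) h0 h1 x, cramer_eq_adjugate_mulVec, mulVec_mulVec, adjugate_mul,
      smul_mulVec, one_mulVec]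
  unfold gg
  simp only [map_mul, map_sub, map_add, map_sum, eval_X, eval_det, eval_upd, valu, h2,
    Pi.smul_apply, smul_eq_mul]
  unfold qv
  have h3 : ∑ t, P s a t * ((LL P x).det * val P ρ x t) =
      (LL P x).det * ∑ t, P s a t * val P ρ x t := by
    rw [mul_sum]
    exact sum_congr rfl fun t _ => by ring
  rw [h3]
  ring

/-- the signs -/
noncomputable def sgn (P : Pos r l → Fin k → Pos r l → ℝ) (ρ : Pos r l → Fin k → ℝ) :
    (Pos r l → Fin k) × (Pos r l × Fin k) → SignType :=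
  fun x => SignType.sign (eval (valu P ρ) (gg x))

/-- the improving sets, from the signs -/
noncomputable def impd (g : (Pos r l → Fin k) × (Pos r l × Fin k) → SignType)
    (σ : Fin r → Fin k) : Finset (Fin r × Fin k) := by
  classical
  exact univ.filter fun p => ∃ τ : Fin l → Fin k,
    (∀ t a, g (Sum.elim σ τ, Sum.inr t, a) ≠ -1) ∧ g (Sum.elim σ τ, Sum.inl p.1, p.2) = 1

lemma sgn_ne (h0 : ∀ s a t, 0 ≤ P s a t) (h1 : ∀ s a, ∑ t, P s a t < 1)
    (x : Pos r l → Fin k) (s : Pos r l) (a : Fin k) :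
    sgn P ρ (x, s, a) ≠ -1 ↔ val P ρ x s ≤ qv P ρ (val P ρ x) s a := by
  have hd := det_ne h0 h1 x
  have hd2 : 0 < (LL P x).det ^ 2 := by positivity
  unfold sgn
  rw [eval_gg h0 h1, Ne, sign_eq_neg_one_iff, not_lt]
  constructor
  · intro h
    by_contra hcon
    push Not at hcon
    have := mul_neg_of_pos_of_neg hd2 (show qv P ρ (val P ρ x) s a - val P ρ x s < 0 by linarith)
    linarith
  · intro h
    exact mul_nonneg hd2.le (by linarith)

lemma sgn_eq (h0 : ∀ s a t, 0 ≤ P s a t) (h1 : ∀ s a, ∑ t, P s a t < 1)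
    (x : Pos r l → Fin k) (s : Pos r l) (a : Fin k) :
    sgn P ρ (x, s, a) = 1 ↔ val P ρ x s < qv P ρ (val P ρ x) s a := by
  have hd := det_ne h0 h1 x
  have hd2 : 0 < (LL P x).det ^ 2 := by positivity
  unfold sgn
  rw [eval_gg h0 h1, sign_eq_one_iff]
  constructor
  · intro h
    have := pos_of_mul_pos_right h hd2.le
    linarith
  · intro h
    exact mul_pos hd2 (by linarith)

lemma imp_eq [NeZero k] (h0 : ∀ s a t, 0 ≤ P s a t) (h1 : ∀ s a, ∑ t, P s a t < 1) :
    imp (obj P ρ) = impd (sgn P ρ) := by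
  classical
  funext σ
  ext p
  unfold impd
  rw [mem_imp, obj_iff h0 h1, mem_filter]
  constructor
  · intro h
    refine ⟨mem_univ _, br P ρ σ, fun t a => (sgn_ne h0 h1 _ _ _).2 (vs_min h0 h1 σ t a),
      (sgn_eq h0 h1 _ _ _).2 h⟩
  · rintro ⟨-, τ, h2, h3⟩
    have h4 : IsValue P ρ σ (val P ρ (Sum.elim σ τ)) := by
      refine ⟨fun s => val_eq h0 h1 _ _, fun s => ⟨fun a => (sgn_ne h0 h1 _ _ _).1 (h2 s a),
        τ s, val_eq h0 h1 _ _⟩⟩
    have h5 := (sgn_eq h0 h1 _ _ _).1 h3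
    rw [h4.eq h0 h1] at h5
    exact h5

/-- the improving sets of games -/
def gameTypes (r l k : ℕ) [NeZero k] : Set ((Fin r → Fin k) → Finset (Fin r × Fin k)) :=
  {Φ | ∃ (P : Pos r l → Fin k → Pos r l → ℝ) (ρ : Pos r l → Fin k → ℝ),
    (∀ s a t, 0 ≤ P s a t) ∧ (∀ s a, ∑ t, P s a t < 1) ∧ imp (obj P ρ) = Φ}

theorem ncard_gameTypes (r l k : ℕ) [NeZero k] : (gameTypes r l k).ncard ≤
    (4 * (k ^ (r + l) * ((r + l) * k)) * (2 * (r + l) + 1) + 2) ^
      ((r + l) * (k * (r + l)) + (r + l) * k) := by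
  classical
  have h := Pool.Agent.Helper448.Warren.ncard_sign_patterns_le (gg (r := r) (l := l) (k := k))
    (2 * (r + l) + 1) totalDegree_gg
  set φ : (Vr r l k → ℝ) → ((Pos r l → Fin k) × (Pos r l × Fin k) → SignType) :=
    fun v x => SignType.sign (eval v (gg x)) with hφ
  have h1 : gameTypes r l k ⊆ impd '' Set.range φ := by
    rintro Φ ⟨P, ρ, h0, h1, rfl⟩
    exact ⟨φ (valu P ρ), ⟨_, rfl⟩, (imp_eq h0 h1).symm⟩
  have hfin : (Set.range φ).Finite := Set.toFinite _
  refine (Set.ncard_le_ncard h1 (hfin.image _)).trans ?_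
  refine (Set.ncard_image_le hfin).trans (h.trans ?_)
  have hc : Fintype.card ((Pos r l → Fin k) × (Pos r l × Fin k)) =
      k ^ (r + l) * ((r + l) * k) := by simp
  have hI : Fintype.card (Vr r l k) = (r + l) * (k * (r + l)) + (r + l) * k := by simp
  rw [hc, hI]

/-- **The number of types.** -/
theorem log_gameTypes (hr : 1 ≤ r) (hk : 1 ≤ k) [NeZero k] :
    Real.log (gameTypes r l k).ncard ≤ 3 * ((r + l) * k) ^ 2 * (r + l + 1) := by
  have h := ncard_gameTypes r l k
  have hn : ((r : ℝ) + l) = ((r + l : ℕ) : ℝ) := by push_cast; ring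
  rw [hn]
  set N := r + l with hN
  have hN1 : 1 ≤ N := by omega
  set M := N * k with hM
  have hM1 : 1 ≤ M := Nat.mul_pos hN1 hk
  have hNM : N ≤ M := Nat.le_mul_of_pos_right _ hk
  have e1 : 4 * (k ^ N * M) * (2 * N + 1) + 2 ≤ k ^ N * (14 * M ^ 2) := by
    have a1 : 1 ≤ k ^ N := Nat.one_le_pow _ _ hk
    have a2 : 4 * M * (2 * N + 1) + 2 ≤ 14 * M ^ 2 := by nlinarith
    calc 4 * (k ^ N * M) * (2 * N + 1) + 2 ≤ k ^ N * (4 * M * (2 * N + 1)) + k ^ N * 2 := by
          have : 4 * (k ^ N * M) * (2 * N + 1) = k ^ N * (4 * M * (2 * N + 1)) := by ring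
          omega
      _ = k ^ N * (4 * M * (2 * N + 1) + 2) := by ring
      _ ≤ _ := Nat.mul_le_mul_left _ a2
  have e2 : N * (k * N) + M = M * (N + 1) := by rw [hM]; ring
  have h2 : (gameTypes r l k).ncard ≤ (k ^ N * (14 * M ^ 2)) ^ (M * (N + 1)) := by
    rw [e2] at h
    exact h.trans (Nat.pow_le_pow_left e1 _)
  rcases Nat.eq_zero_or_pos (gameTypes r l k).ncard with hz | hz
  · rw [hz]; simp only [Nat.cast_zero, Real.log_zero]; positivity
  have h3 : Real.log (gameTypes r l k).ncard ≤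
      Real.log (((k ^ N * (14 * M ^ 2)) ^ (M * (N + 1)) : ℕ) : ℝ) :=
    Real.log_le_log (by exact_mod_cast hz) (by exact_mod_cast h2)
  have hk0 : (0 : ℝ) < k := by exact_mod_cast hk
  have hM0 : (0 : ℝ) < M := by exact_mod_cast hM1
  have hM1' : (1 : ℝ) ≤ M := by exact_mod_cast hM1
  have hN1' : (1 : ℝ) ≤ N := by exact_mod_cast hN1
  push_cast at h3
  rw [Real.log_pow, Real.log_mul (by positivity) (by positivity), Real.log_pow,
    Real.log_mul (by norm_num) (by positivity), Real.log_pow] at h3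
  have h4 : Real.log k ≤ k - 1 := Real.log_le_sub_one_of_pos hk0
  have h5 : Real.log M ≤ M - 1 := Real.log_le_sub_one_of_pos hM0
  have h6 : Real.log 14 ≤ 3 := by
    rw [Real.log_le_iff_le_exp (by norm_num)]
    have e1 : Real.exp 3 = Real.exp 1 ^ 3 := by
      rw [← Real.exp_nat_mul]; norm_num
    rw [e1]
    have := Real.exp_one_gt_d9
    have h4 : (2.7 : ℝ) ^ 3 ≤ Real.exp 1 ^ 3 := by
      apply pow_le_pow_left₀ (by norm_num)
      linarith
    norm_num at h4
    linarith
  have h7 : (N : ℝ) * Real.log k + (Real.log 14 + ((2 : ℕ) : ℝ) * Real.log M) ≤ 3 * M := by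
    have a1 : (N : ℝ) * Real.log k ≤ N * (k - 1) := mul_le_mul_of_nonneg_left h4 (by positivity)
    have a2 : (M : ℝ) = N * k := by rw [hM]; push_cast; ring
    push_cast
    nlinarith
  refine h3.trans ?_
  have a3 : (((M * (N + 1) : ℕ)) : ℝ) = M * (N + 1) := by push_cast; ring
  calc (((M * (N + 1) : ℕ)) : ℝ) * ((N : ℝ) * Real.log k +
        (Real.log 14 + ((2 : ℕ) : ℝ) * Real.log M))
      ≤ (((M * (N + 1) : ℕ)) : ℝ) * (3 * M) := mul_le_mul_of_nonneg_left h7 (by positivity)
    _ = 3 * (N * k) ^ 2 * (N + 1) := by rw [a3, hM]; push_cast; ring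

end Pool.Agent.J4H23.Fam.Game
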