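import Pool.Agent.J4H23.Fam.GameCount
set_option autoImplicit false

/-!
# Strategy improvement with polynomially many switches
-/

namespace Pool.Agent.J4H23.Fam.Game

open Finset Pool.Agent.J4H23.Fam

variable {r l k : ℕ}

/-- the improving switches, if `v` is the vector of the values of the present strategy -/
noncomputable def improving (P : Pos r l → Fin k → Pos r l → ℝ) (ρ : Pos r l → Fin k → ℝ)
    (v : Pos r l → ℝ) : Finset (Fin r × Fin k) := by
  classical
  exact univ.filter fun p => v (Sum.inl p.1) < qv P ρ v (Sum.inl p.1) p.2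

/-- what has been seen: the strategies and their improving switches, the present ones first -/
noncomputable def seenG (P : Pos r l → Fin k → Pos r l → ℝ) (ρ : Pos r l → Fin k → ℝ)
    (σ : ℕ → Fin r → Fin k) (v : ℕ → Pos r l → ℝ) :
    ℕ → List ((Fin r → Fin k) × Finset (Fin r × Fin k))
  | 0 => [(σ 0, improving P ρ (v 0))]
  | t + 1 => (σ (t + 1), improving P ρ (v (t + 1))) :: seenG P ρ σ v t

/-- **Polynomially many switches.** -/
theorem policy (r l k : ℕ) (hr : 1 ≤ r) (hk : 1 ≤ k) :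
    ∃ rule : List ((Fin r → Fin k) × Finset (Fin r × Fin k)) → Fin r × Fin k,
      ∀ (P : Pos r l → Fin k → Pos r l → ℝ) (ρ : Pos r l → Fin k → ℝ),
        (∀ s a t, 0 ≤ P s a t) → (∀ s a, ∑ t, P s a t < 1) → ∀ σ₀ : Fin r → Fin k,
        ∃ (T : ℕ) (σ : ℕ → Fin r → Fin k) (v : ℕ → Pos r l → ℝ), σ 0 = σ₀ ∧
          (∀ t, IsValue P ρ (σ t) (v t)) ∧
          (∀ t < T, rule (seenG P ρ σ v t) ∈ improving P ρ (v t) ∧
            σ (t + 1) = Function.update (σ t) (rule (seenG P ρ σ v t)).1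
              (rule (seenG P ρ σ v t)).2 ∧ v t < v (t + 1)) ∧
          (∀ σ' v', IsValue P ρ σ' v' → v' ≤ v T) ∧
          T ≤ r * k + 3 * (r * k) ^ 3 * ((r + l) * k) ^ 2 * (r + l + 1) := by
  classical
  have : NeZero k := ⟨by omega⟩
  obtain ⟨rule, h⟩ := families hr hk (gameTypes r l k)
  refine ⟨rule, fun P ρ h0 h1 σ₀ => ?_⟩
  obtain ⟨T, σ, a1, a2, a3, a4⟩ := h (obj P ρ) (good h0 h1) ⟨P, ρ, h0, h1, rfl⟩ σ₀
  have himp : ∀ σ, improving P ρ (vs P ρ σ) = imp (obj P ρ) σ := by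
    intro σ
    ext p
    unfold improving
    rw [mem_imp, obj_iff h0 h1, mem_filter]
    exact ⟨fun h => h.2, fun h => ⟨mem_univ _, h⟩⟩
  have hseen : ∀ t, seenG P ρ σ (fun t => vs P ρ (σ t)) t = seen (obj P ρ) σ t := by
    intro t
    induction t with
    | zero => simp only [seenG, seen]; rw [himp]
    | succ t ih => simp only [seenG, seen]; rw [himp, ih]
  refine ⟨T, σ, fun t => vs P ρ (σ t), a1, fun t => isValue_vs h0 h1 _, fun t ht => ?_,
    fun σ' v' hv' => ?_, ?_⟩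
  · obtain ⟨b1, b2⟩ := a2 t ht
    rw [hseen]
    simp only [himp]
    refine ⟨b1, b2, ?_⟩
    have h2 := (obj_iff h0 h1 _ _).1 (mem_imp.1 b1)
    obtain ⟨c1, c2⟩ := mono_up h0 h1 h2
    rw [b2]
    exact Pi.lt_def.2 ⟨c1, _, c2⟩
  · rw [hv'.eq h0 h1]
    intro s
    refine mono_down h0 h1 (fun s => ?_) s
    by_contra hcon
    push Not at hcon
    have := (obj_iff h0 h1 (σ T) (s, σ' s)).2 hcon
    exact absurd (a3 _) (not_le.2 this)
  · have e1 := log_gameTypes (r := r) (l := l) (k := k) hr hk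
    have hr' : (1 : ℝ) ≤ r := by exact_mod_cast hr
    have hk' : (1 : ℝ) ≤ k := by exact_mod_cast hk
    have hl' : (0 : ℝ) ≤ l := Nat.cast_nonneg l
    have hn0 : (0 : ℝ) ≤ (r : ℝ) * (k - 1) := mul_nonneg (by linarith) (by linarith)
    have e2 : (r : ℝ) * (k - 1) * (r * (k - 1) + 1) ≤ (r * k) ^ 2 := by
      have f1 : (r : ℝ) * (k - 1) ≤ r * k := by nlinarith
      have f2 : (r : ℝ) * (k - 1) + 1 ≤ r * k := by nlinarith
      calc (r : ℝ) * (k - 1) * (r * (k - 1) + 1) ≤ (r * k) * (r * k) :=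
            mul_le_mul f1 f2 (by linarith) (by positivity)
        _ = _ := by ring
    have e3 : (T : ℝ) ≤ ((r * k + 3 * (r * k) ^ 3 * ((r + l) * k) ^ 2 * (r + l + 1) : ℕ) : ℝ) := by
      have g1 : (r : ℝ) * k * (r * (k - 1)) * (r * (k - 1) + 1) ≤ (r * k) ^ 3 := by
        calc (r : ℝ) * k * (r * (k - 1)) * (r * (k - 1) + 1) =
            (r * k) * (r * (k - 1) * (r * (k - 1) + 1)) := by ring
          _ ≤ (r * k) * (r * k) ^ 2 := mul_le_mul_of_nonneg_left e2 (by positivity)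
          _ = _ := by ring
      have g2 : (0 : ℝ) ≤ Real.log (gameTypes r l k).ncard := Real.log_natCast_nonneg _
      have g3 : (r : ℝ) * k * (r * (k - 1)) * (r * (k - 1) + 1) *
          Real.log (gameTypes r l k).ncard ≤
          (r * k) ^ 3 * (3 * ((r + l) * k) ^ 2 * (r + l + 1)) :=
        mul_le_mul g1 e1 g2 (by positivity)
      push_cast
      nlinarith
    exact_mod_cast e3

end Pool.Agent.J4H23.Fam.Game
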