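import Pool.Agent.N597.QP.Final
import Pool.Agent.J4H23.Box.Works
set_option autoImplicit false

/-!
# Families of abstract objective functions on products of simplices
-/

namespace Pool.Agent.J4H23.Fam

open Finset Pool.Agent.N597.QP Pool.Agent.N597.QP.Str Pool.Agent.J4H23.Box

variable {r k : ℕ}

/-- change the choice at `p.1` to `p.2` -/
def switch (x : Fin r → Fin k) (p : Fin r × Fin k) : Fin r → Fin k := Function.update x p.1 p.2

/-- the improving switches of the vertex `x` -/
noncomputable def imp (f : (Fin r → Fin k) → ℝ) (x : Fin r → Fin k) : Finset (Fin r × Fin k) := by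
  classical
  exact univ.filter fun p => f x < f (switch x p)

/-- abstract objective functions on the product of `r` simplices with `k` vertices: on every face, a
vertex which has no better neighbour in this face is optimal on this face -/
def Good (f : (Fin r → Fin k) → ℝ) : Prop :=
  ∀ (Y : Fin r → Finset (Fin k)) (x : Fin r → Fin k), (∀ s, x s ∈ Y s) →
    (∀ s, ∀ a ∈ Y s, f (switch x (s, a)) ≤ f x) → ∀ y : Fin r → Fin k, (∀ s, y s ∈ Y s) → f y ≤ f x

lemma mem_imp {f : (Fin r → Fin k) → ℝ} {x : Fin r → Fin k} {p : Fin r × Fin k} :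
    p ∈ imp f x ↔ f x < f (switch x p) := by
  classical
  simp [imp]

/-- the facets which contain `x` -/
def tt (x : Fin r → Fin k) : Finset (Fin r × Fin k) := univ.filter fun p => x p.1 ≠ p.2

@[simp] lemma mem_tt {x : Fin r → Fin k} {p : Fin r × Fin k} : p ∈ tt x ↔ x p.1 ≠ p.2 := by
  simp [tt]

lemma tt_injective : Function.Injective (tt : (Fin r → Fin k) → Finset (Fin r × Fin k)) := by
  intro x y h
  funext s
  by_contra hne
  have h1 : (s, x s) ∈ tt y := mem_tt.2 (Ne.symm hne)
  rw [← h, mem_tt] at h1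
  exact h1 rfl

lemma card_tt (x : Fin r → Fin k) : (tt x).card = r * (k - 1) := by
  classical
  have h : tt x = univ.biUnion fun s => (univ.erase (x s)).image fun a => (s, a) := by
    ext ⟨s, a⟩
    simp only [mem_tt, mem_biUnion, mem_univ, true_and, mem_image, mem_erase, and_true,
      Prod.mk.injEq]
    constructor
    · intro h
      exact ⟨s, a, Ne.symm h, rfl, rfl⟩
    · rintro ⟨s', a', h1, rfl, rfl⟩
      exact Ne.symm h1
  rw [h, card_biUnion]
  · have e : ∀ s ∈ (univ : Finset (Fin r)),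
        ((univ.erase (x s)).image fun a => (s, a)).card = k - 1 := by
      intro s _
      rw [card_image_of_injective _ (fun a b hab => (Prod.mk.inj hab).2),
        card_erase_of_mem (mem_univ _), card_univ, Fintype.card_fin]
    rw [sum_congr rfl e, sum_const, card_univ, Fintype.card_fin, smul_eq_mul]
  · intro s _ s' _ hne
    rw [Function.onFun, disjoint_left]
    rintro ⟨a, c⟩ h1 h2
    simp only [mem_image, Prod.mk.injEq] at h1 h2
    obtain ⟨_, _, h1, _⟩ := h1
    obtain ⟨_, _, h2, _⟩ := h2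
    exact hne (h1.trans h2.symm)

variable [NeZero k]

open Classical in
/-- the vertex of a set of facets -/
noncomputable def dec (B : Finset (Fin r × Fin k)) : Fin r → Fin k :=
  if h : ∃ x, tt x = B then h.choose else fun _ => 0

@[simp] lemma dec_tt (x : Fin r → Fin k) : dec (tt x) = x := by
  unfold dec
  have h : ∃ y, tt y = tt x := ⟨x, rfl⟩
  rw [dif_pos h]
  exact tt_injective h.choose_spec

omit [NeZero k] in
lemma switch_self (x : Fin r → Fin k) (s : Fin r) : switch x (s, x s) = x := by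
  unfold switch
  exact Function.update_eq_self s x

omit [NeZero k] in
lemma tt_switch {x : Fin r → Fin k} {p : Fin r × Fin k} :
    (tt x).erase p ⊆ tt (switch x p) := by
  rintro ⟨s, a⟩ h
  rw [mem_erase, mem_tt] at h
  rw [mem_tt]
  unfold switch
  simp only at h ⊢
  by_cases hs : s = p.1
  · subst hs
    rw [Function.update_self]
    intro h2
    exact h.1 (Prod.ext rfl h2.symm)
  · rw [Function.update_of_ne hs]
    exact h.2

/-- the sub-grid of a face -/
def sub (E : Finset (Fin r × Fin k)) (s : Fin r) : Finset (Fin k) := univ.filter fun a => (s, a) ∉ E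

omit [NeZero k] in
lemma mem_sub {E : Finset (Fin r × Fin k)} {s : Fin r} {a : Fin k} : a ∈ sub E s ↔ (s, a) ∉ E := by
  simp [sub]

omit [NeZero k] in
lemma subset_tt_iff {E : Finset (Fin r × Fin k)} {x : Fin r → Fin k} :
    E ⊆ tt x ↔ ∀ s, x s ∈ sub E s := by
  constructor
  · intro h s
    rw [mem_sub]
    intro h2
    exact mem_tt.1 (h h2) rfl
  · rintro h ⟨s, a⟩ hp
    rw [mem_tt]
    intro h2
    have := mem_sub.1 (h s)
    rw [h2] at this
    exact this hp

omit [NeZero k] in
/-- an optimal vertex of a face, by its improving set -/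
lemma Good.opt {f : (Fin r → Fin k) → ℝ} (hf : Good f) {E : Finset (Fin r × Fin k)}
    {x : Fin r → Fin k} (hE : E ⊆ tt x) (h : imp f x ⊆ E) {y : Fin r → Fin k} (hy : E ⊆ tt y) :
    f y ≤ f x := by
  refine hf (sub E) x (subset_tt_iff.1 hE) (fun s a ha => ?_) y (subset_tt_iff.1 hy)
  by_contra hcon
  exact mem_sub.1 ha (h (mem_imp.2 (not_le.1 hcon)))

/-- a family of abstract objective functions, given by their improving sets -/
abbrev Typ (T : Set ((Fin r → Fin k) → Finset (Fin r × Fin k))) : Type :=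
  {Φ : (Fin r → Fin k) → Finset (Fin r × Fin k) // Φ ∈ T ∧ ∃ f, Good f ∧ imp f = Φ}

/-- the model -/
noncomputable def mod (T : Set ((Fin r → Fin k) → Finset (Fin r × Fin k))) :
    Model (Fin r × Fin k) (Typ T) (r * (k - 1)) where
  inst ω := ⟨fun B => ω.1 (dec B), fun B p => tt (switch (dec B) p)⟩
  V _ B := ∃ x, tt x = B
  val ω B := ((ω.2.2.choose (dec B) : ℝ) : EReal)
  w ω E _ j := ⨆ x : {x : Fin r → Fin k // insert j E ⊆ tt x}, ((ω.2.2.choose x.1 : ℝ) : EReal)
  card_V := by
    rintro ω B ⟨x, rfl⟩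
    exact card_tt x
  sub := by
    rintro ω B ⟨x, rfl⟩ p hp
    simp only [dec_tt] at hp
    rw [← ω.2.2.choose_spec.2, mem_imp] at hp
    rw [mem_tt]
    intro h
    have : switch x p = x := by
      have e : p = (p.1, x p.1) := Prod.ext rfl h.symm
      rw [e]
      exact switch_self x p.1
    rw [this] at hp
    exact lt_irrefl _ hp
  next_V := by
    intro ω B p _ _
    exact ⟨_, rfl⟩
  next_sub := by
    rintro ω B p ⟨x, rfl⟩ _
    simp only [dec_tt]
    exact tt_switch
  next_lt := by
    rintro ω B p ⟨x, rfl⟩ hp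
    simp only [dec_tt] at hp ⊢
    rw [← ω.2.2.choose_spec.2, mem_imp] at hp
    rw [EReal.coe_lt_coe_iff]
    exact hp
  le_w := by
    rintro ω E ρ j B ⟨x, rfl⟩ hE _ hj _
    simp only [dec_tt]
    exact le_iSup_of_le (⟨x, insert_subset hj hE⟩ : {x : Fin r → Fin k // insert j E ⊆ tt x}) le_rfl
  w_le := by
    rintro ω E ρ j B ⟨x, rfl⟩ hE _ hj _ hS
    simp only [dec_tt] at hS ⊢
    rw [← ω.2.2.choose_spec.2] at hS
    refine iSup_le fun y => ?_
    rw [EReal.coe_le_coe_iff]
    exact ω.2.2.choose_spec.1.opt (insert_subset hj hE) hS y.2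

lemma mod_S {T : Set ((Fin r → Fin k) → Finset (Fin r × Fin k))} (ω : Typ T)
    (x : Fin r → Fin k) : ((mod T).inst ω).S (tt x) = ω.1 x := by
  change ω.1 (dec (tt x)) = _
  rw [dec_tt]

lemma mod_N {T : Set ((Fin r → Fin k) → Finset (Fin r × Fin k))} (ω : Typ T)
    (x : Fin r → Fin k) (p : Fin r × Fin k) :
    ((mod T).inst ω).N (tt x) p = tt (switch x p) := by
  change tt (switch (dec (tt x)) p) = _
  rw [dec_tt]

lemma optMax_mod (T : Set ((Fin r → Fin k) → Finset (Fin r × Fin k))) : OptMax (mod T) := by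
  rintro ω E B B' ⟨⟨x, rfl⟩, hE, hS⟩ ⟨y, rfl⟩ hE'
  rw [mod_S, ← ω.2.2.choose_spec.2] at hS
  change ((ω.2.2.choose (dec (tt y)) : ℝ) : EReal) ≤ ((ω.2.2.choose (dec (tt x)) : ℝ) : EReal)
  rw [dec_tt, dec_tt, EReal.coe_le_coe_iff]
  exact ω.2.2.choose_spec.1.opt hE hS hE'

lemma direct_mod {T : Set ((Fin r → Fin k) → Finset (Fin r × Fin k))} (ω : Typ T) :
    Direct (mod T) ω := by
  classical
  rintro E B ⟨x, rfl⟩ hE hnot
  rw [mod_S] at hnot ⊢
  obtain ⟨hg, hΦ⟩ := ω.2.2.choose_spec
  set f := ω.2.2.choose with hf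
  rw [← hΦ] at hnot ⊢
  right
  obtain ⟨p₀, hp₀, hp₀E⟩ := not_subset.1 hnot
  -- an optimal vertex of the face
  let X : Finset (Fin r → Fin k) := univ.filter fun y => E ⊆ tt y
  have hX : X.Nonempty := ⟨x, by simp only [X, mem_filter, mem_univ, true_and]; exact hE⟩
  obtain ⟨t, ht, hmax⟩ := exists_max_image X f hX
  have htE : E ⊆ tt t := (mem_filter.1 ht).2
  have hsw : ∀ p, p ∉ E → E ⊆ tt (switch x p) := fun p hp i hi =>
    tt_switch (mem_erase.2 ⟨fun h => hp (h ▸ hi), hE hi⟩)
  have hlt : f x < f t := by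
    have h1 := mem_imp.1 hp₀
    have h2 := hmax (switch x p₀) (by
      simp only [X, mem_filter, mem_univ, true_and]; exact hsw p₀ hp₀E)
    linarith
  obtain ⟨s, a, hsa, hgt⟩ : ∃ s, ∃ a ∈ ({x s, t s} : Finset (Fin k)), f x < f (switch x (s, a)) := by
    by_contra hcon
    push Not at hcon
    have := hg (fun s => {x s, t s}) x (fun s => by simp) (fun s a ha => hcon s a ha) t
      (fun s => by simp)
    linarith
  have hne : a ≠ x s := by
    rintro rfl
    rw [switch_self] at hgt
    exact lt_irrefl _ hgt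
  have hat : a = t s := by
    rw [mem_insert, mem_singleton] at hsa
    rcases hsa with h | h
    · exact absurd h hne
    · exact h
  refine ⟨(s, a), mem_sdiff.2 ⟨mem_imp.2 hgt, fun h => ?_⟩, (s, x s), ?_, ?_, tt t,
    ⟨⟨t, rfl⟩, htE, ?_⟩, ?_⟩
  · have := mem_tt.1 (htE h)
    exact this hat.symm
  · rw [mod_N, mem_tt]
    unfold switch
    rw [Function.update_self]
    exact hne
  · rw [mem_tt]
    simp
  · rw [mod_S, ← hΦ]
    intro p hp
    by_contra hpE
    have h1 := mem_imp.1 hp
    have h2 : E ⊆ tt (switch t p) := fun i hi =>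
      tt_switch (mem_erase.2 ⟨fun h => hpE (h ▸ hi), htE hi⟩)
    have h3 := hmax (switch t p) (by
      simp only [X, mem_filter, mem_univ, true_and]; exact h2)
    linarith
  · rw [mem_tt]
    simp only
    rw [← hat]
    exact hne

end Pool.Agent.J4H23.Fam
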