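import Pool.Agent.J4H23.Fam.Grid
set_option autoImplicit false

/-!
# Small families of abstract objective functions have good pivot rules
-/

namespace Pool.Agent.J4H23.Fam

open Finset Pool.Agent.N597.QP Pool.Agent.N597.QP.Str Pool.Agent.J4H23.Box

variable {r k : ℕ}

/-- what has been seen at `x 0, …, x t`: the vertices and their improving switches, the present
vertex first -/
noncomputable def seen (f : (Fin r → Fin k) → ℝ) (x : ℕ → Fin r → Fin k) :
    ℕ → List ((Fin r → Fin k) × Finset (Fin r × Fin k))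
  | 0 => [(x 0, imp f (x 0))]
  | t + 1 => (x (t + 1), imp f (x (t + 1))) :: seen f x t

section

variable [NeZero k]

/-- the polynomial strategy -/
lemma poly (T : Set ((Fin r → Fin k) → Finset (Fin r × Fin k))) (o : Obs (Fin r × Fin k)) :
    ∃ t : Str (Fin r × Fin k), Safe ∅ t o.2 ∧ ∀ ω : Typ T, (mod T).V ω o.1 →
      ((mod T).inst ω).ob o.1 = o →
      ((play ((mod T).inst ω) t o.1).length : ℝ) ≤
        (r * (k - 1) : ℕ) + 2 * (r * k : ℕ) *
          ((r * (k - 1) : ℕ) * ((r * (k - 1) : ℕ) + 1) / 2 : ℝ) * Real.log T.ncard ∧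
      (lst o (play ((mod T).inst ω) t o.1)).2 ⊆ ∅ := by
  classical
  set M := mod T with hM
  have hfin : T.Finite := Set.toFinite T
  have : Fintype (Typ T) := Fintype.ofFinite _
  set K : Finset (Typ T × Finset (Fin r × Fin k)) :=
    (univ.filter fun ω => M.V ω o.1 ∧ (M.inst ω).ob o.1 = o).image fun ω => (ω, univ) with hK
  have hKcard : K.card ≤ T.ncard := by
    refine card_image_le.trans ((card_filter_le _ _).trans ?_)
    rw [card_univ, ← Nat.card_eq_fintype_card]
    have h1 : Nat.card (Typ T) = {Φ | Φ ∈ T ∧ ∃ f, Good f ∧ imp f = Φ}.ncard := rfl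
    rw [h1]
    exact Set.ncard_le_ncard (fun Φ h => h.1) hfin
  obtain ⟨t, s1, s2, s3⟩ : ∃ t, W M ∅ o K t
      (cst (2 * Fintype.card (Fin r × Fin k)) (r * (k - 1)) K.card) := by
    refine works (optMax_mod T) (r * (k - 1)) K.card ∅ o K le_rfl (by simp) (empty_subset _) ?_ ?_
    · intro p hp
      obtain ⟨ω, hω, rfl⟩ := mem_image.1 hp
      obtain ⟨a1, a2⟩ := (mem_filter.1 hω).2
      exact ⟨a1, a2, subset_univ _⟩
    · intro p hp
      obtain ⟨ω, hω, rfl⟩ := mem_image.1 hp
      exact ⟨rfl, direct_mod ω⟩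
  refine ⟨t, s1, fun ω hV ho => ⟨?_, ?_⟩⟩
  · have h3 := s2 ω hV ho
    unfold cst at h3
    have e1 : Real.log K.card ≤ Real.log T.ncard := log_mono hKcard
    have e2 : 0 ≤ Real.log (surv M K t o.1 (play (M.inst ω) t o.1)).card :=
      Real.log_natCast_nonneg _
    rw [Fintype.card_prod, Fintype.card_fin, Fintype.card_fin] at h3
    refine h3.trans ?_
    rw [Nat.cast_mul 2 (r * k), Nat.cast_two]
    have e3 : (0 : ℝ) ≤ 2 * (r * k : ℕ) *
        ((r * (k - 1) : ℕ) * ((r * (k - 1) : ℕ) + 1) / 2 : ℝ) := by positivity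
    have e4 := mul_le_mul_of_nonneg_left (show Real.log K.card -
      Real.log (surv M K t o.1 (play (M.inst ω) t o.1)).card ≤ Real.log T.ncard by linarith) e3
    linarith
  · exact s3 (ω, univ) (mem_image_of_mem _ (mem_filter.2 ⟨mem_univ _, hV, ho⟩))
      fun o' _ => subset_univ _

end

/-- an observation as a pair of sets of facets -/
def enc (o : (Fin r → Fin k) × Finset (Fin r × Fin k)) : Obs (Fin r × Fin k) := (tt o.1, o.2)

/-- **A rule for every family.** -/
theorem families (hr : 1 ≤ r) (hk : 1 ≤ k)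
    (T : Set ((Fin r → Fin k) → Finset (Fin r × Fin k))) :
    ∃ rule : List ((Fin r → Fin k) × Finset (Fin r × Fin k)) → Fin r × Fin k,
      ∀ f : (Fin r → Fin k) → ℝ, Good f → imp f ∈ T → ∀ x₀ : Fin r → Fin k,
        ∃ (t : ℕ) (x : ℕ → Fin r → Fin k), x 0 = x₀ ∧
          (∀ j < t, rule (seen f x j) ∈ imp f (x j) ∧
            x (j + 1) = switch (x j) (rule (seen f x j))) ∧
          (∀ y, f y ≤ f (x t)) ∧
          (t : ℝ) ≤ r * (k - 1) +
            r * k * (r * (k - 1)) * (r * (k - 1) + 1) * Real.log T.ncard := by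
  classical
  have : NeZero k := ⟨by omega⟩
  have : NeZero r := ⟨by omega⟩
  choose t₀ ht₀ using poly (r := r) (k := k) T
  set rule₀ := ruleOf t₀ ((0 : Fin r), (0 : Fin k)) with hrule₀
  refine ⟨fun l => rule₀ (l.map enc), fun f hf hT x₀ => ?_⟩
  set ω₀ : Typ T := ⟨imp f, hT, f, hf, rfl⟩ with hω₀
  set g := (mod T).inst ω₀ with hg
  set w := walk g rule₀ (tt x₀) with hw
  have hw0 : w 0 = tt x₀ := rfl
  have hwt : ∀ j, tt (dec (w j)) = w j := by
    intro j
    cases j with
    | zero => rw [hw0, dec_tt]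
    | succ j =>
      rw [hw, walk_succ]
      change tt (dec (tt _)) = tt _
      rw [dec_tt]
  have hS : ∀ j, g.S (w j) = imp f (dec (w j)) := by
    intro j
    conv_lhs => rw [← hwt j]
    rw [hg, mod_S]
  have hob : ∀ j, g.ob (w j) = enc (dec (w j), imp f (dec (w j))) := by
    intro j
    unfold Inst.ob enc
    rw [hS, hwt]
  have hseen : ∀ j, (seen f (fun i => dec (w i)) j).map enc = hist g w j := by
    intro j
    induction j with
    | zero => simp only [seen, hist, List.map_cons, List.map_nil]; rw [hob]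
    | succ j ih => simp only [seen, hist, List.map_cons]; rw [ih, hob]
  set o := g.ob (tt x₀) with ho
  obtain ⟨c1, c2⟩ := follow g t₀ ((0 : Fin r), (0 : Fin k)) (tt x₀) (t₀ o) 0 rfl (ht₀ o).1
  rw [← hrule₀, ← hw, hw0] at c1 c2
  simp only [Nat.zero_add] at c1 c2
  set t := (play g (t₀ o) (tt x₀)).length with ht
  obtain ⟨d1, d2⟩ := (ht₀ o).2 ω₀ ⟨x₀, rfl⟩ rfl
  refine ⟨t, fun i => dec (w i), by simp only [hw0, dec_tt], fun j hj => ?_, fun y => ?_, ?_⟩
  · have h1 := c1 j hj
    have h2 : w (j + 1) = g.N (w j) (rule₀ (hist g w j)) := by rw [hw, walk_succ]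
    have h3 : dec (w (j + 1)) = switch (dec (w j)) (rule₀ (hist g w j)) := by
      rw [h2]
      conv_lhs => rw [← hwt j]
      rw [hg, mod_N, dec_tt]
    rw [hS] at h1
    simp only [hseen]
    exact ⟨h1, h3⟩
  · refine hf.opt (E := ∅) (empty_subset _) ?_ (empty_subset _)
    have h3 : lst o (play g (t₀ o) (tt x₀)) = g.ob (lst o (play g (t₀ o) (tt x₀))).1 :=
      lst_ob g (t₀ o) (tt x₀)
    have h4 : (lst o (play g (t₀ o) (tt x₀))).2 = g.S (w t) := by
      rw [h3, c2]; rfl
    have h5 : (lst o (play g (t₀ o) (tt x₀))).2 ⊆ ∅ := d2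
    rw [h4, hS] at h5
    exact h5
  · have h6 : ((r * (k - 1) : ℕ) : ℝ) = r * (k - 1) := by
      push_cast [Nat.cast_sub hk]
      ring
    have h7 : (t : ℝ) ≤ _ := d1
    rw [h6] at h7
    push_cast at h7
    refine h7.trans (le_of_eq ?_)
    ring

end Pool.Agent.J4H23.Fam
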